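import Pool.Agent.L7h99.BI.Fin2
import Pool.Agent.L7h99.BI.Est2
import Pool.Agent.L7h99.BI.St1
import Pool.Agent.L7h99.BI.Scale
import Pool.Agent.L7h12.BI.Gain
import Pool.Agent.L7h12.BI.Can
import Pool.Agent.L7h56.BI.Cap
import Pool.Agent.L7h56.BI.Sp
import Pool.Agent.L7h56.BI.Max2
import Pool.Agent.L7h65.BI.Bb
import Pool.Agent.L7h65.BI.Gb
import Pool.Agent.L7h65.BI.In2
import Pool.Agent.L7h65.BI.St2
import Pool.Agent.L7h50.BI.Qpn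
import Pool.Agent.L7h50.BI.In1
import Pool.Agent.L7h44.BI.Mc

set_option autoImplicit false

/-!
Projects BI and BI2: helper99 (statements, pointwise estimates, first barrier, assembly) with
helper12 (changes of variables, cancellation), helper56 (spherical integrals, maximum principles),
helper65 (kernel bounds, slow velocities, second barrier), helper50 (truncated operator, inner
estimates), helper44 (moments).
-/

open MeasureTheory Set Filter Topology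

namespace Pool.Agent.Results.MP_187b32_an.CollisionFrequency

/-- The space `ℝ^d` of velocities (and of positions; functions of the position are periodic). -/
abbrev V (d : ℕ) := EuclideanSpace ℝ (Fin d)

/-- `v' = (v + v_*)/2 + |v - v_*| σ/2`. -/
noncomputable def post {d : ℕ} (v w σ : V d) : V d := (1 / 2 : ℝ) • (v + w) + (‖v - w‖ / 2) • σ

/-- `v'_* = (v + v_*)/2 - |v - v_*| σ/2`. -/
noncomputable def postStar {d : ℕ} (v w σ : V d) : V d :=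
  (1 / 2 : ℝ) • (v + w) - (‖v - w‖ / 2) • σ

/-- `cos θ = σ·(v - v_*)/|v - v_*|`. -/
noncomputable def cosTheta {d : ℕ} (v w σ : V d) : ℝ := inner ℝ (v - w) σ / ‖v - w‖

/-- `b` is the angular part of a non-cutoff kernel: `b(cos θ)` lies between two positive multiples
of `sin(θ/2)^(-(d-1)-2s) = ((1 - cos θ)/2)^(-((d-1)/2+s))`. -/
structure NonCutoff (d : ℕ) (s : ℝ) (b : ℝ → ℝ) : Prop where
  meas : Measurable b
  bounds : ∃ c₁ c₂ : ℝ, 0 < c₁ ∧ ∀ z, -1 ≤ z → z < 1 →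
    c₁ * ((1 - z) / 2) ^ (-(((d : ℝ) - 1) / 2 + s)) ≤ b z ∧
      b z ≤ c₂ * ((1 - z) / 2) ^ (-(((d : ℝ) - 1) / 2 + s))

/-- The Boltzmann collision operator with kernel `|v - v_*|^γ b(cos θ)`, angles with
`cos θ ≥ 1 - ε` removed; `volume.toSphere` is the surface measure of the unit sphere. -/
noncomputable def truncatedCollision {d : ℕ} (γ : ℝ) (b : ℝ → ℝ) (ε : ℝ) (F : V d → ℝ)
    (v : V d) : ℝ :=
  ∫ w : V d, ∫ σ : Metric.sphere (0 : V d) 1, (if cosTheta v w σ < 1 - ε then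
    (F (postStar v w σ) * F (post v w σ) - F w * F v) *
      (‖v - w‖ ^ γ * b (cosTheta v w σ)) else 0) ∂((volume : Measure (V d)).toSphere)

/-- `Q(F,F)(v) = Q`, the collision operator being the principal value (limit `ε → 0`). -/
def HasCollision {d : ℕ} (γ : ℝ) (b : ℝ → ℝ) (F : V d → ℝ) (v : V d) (Q : ℝ) : Prop :=
  Tendsto (fun ε => truncatedCollision γ b ε F v) (𝓝[>] 0) (𝓝 Q)

/-- Classical solutions `f(t,x,v) ≥ 0` on `[0,T)` of the Boltzmann equation on the torus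
`ℝ^d/ℤ^d`: continuous, decaying faster than any power of `|v|` uniformly on `[0,T'] × 𝕋^d` for
`T' < T`, differentiable in `(t,x)` with `∂_t f + v·∇_x f = Q(f,f)` at every point. -/
structure ClassicalSolution (d : ℕ) (γ : ℝ) (b : ℝ → ℝ) (T : ℝ) (f : ℝ → V d → V d → ℝ) :
    Prop where
  nonneg : ∀ t ∈ Ico 0 T, ∀ x v, 0 ≤ f t x v
  periodic : ∀ t ∈ Ico 0 T, ∀ x v, ∀ i : Fin d, f t (x + EuclideanSpace.single i 1) v = f t x v
  cont : ContinuousOn (fun p : ℝ × V d × V d => f p.1 p.2.1 p.2.2) (Ico 0 T ×ˢ univ)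
  decay : ∀ T' : ℝ, 0 ≤ T' → T' < T → ∀ q : ℝ, ∃ C : ℝ, ∀ t ∈ Icc 0 T', ∀ x v,
    f t x v ≤ C * (1 + ‖v‖ ^ 2) ^ (-(q / 2))
  equation : ∀ t ∈ Ioo 0 T, ∀ x v, ∃ L : ℝ × V d →L[ℝ] ℝ,
    HasFDerivAt (fun p : ℝ × V d => f p.1 p.2 v) L (t, x) ∧
    HasCollision γ b (f t x) v (L (1, v))

/-- The mass density. -/
noncomputable def mass {d : ℕ} (f : ℝ → V d → V d → ℝ) (t : ℝ) (x : V d) : ℝ := ∫ v, f t x v

/-- The energy density. -/
noncomputable def energy {d : ℕ} (f : ℝ → V d → V d → ℝ) (t : ℝ) (x : V d) : ℝ :=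
  ∫ v, f t x v * ‖v‖ ^ 2

/-- Implosion singularity at `x₀` at time `T`: mass and energy densities are unbounded as `t → T`,
and bounded outside every neighbourhood of (the class modulo `ℤ^d` of) `x₀`. -/
def Implodes {d : ℕ} (T : ℝ) (f : ℝ → V d → V d → ℝ) (x₀ : V d) : Prop :=
  (∀ K : ℝ, ∀ t₀ < T, ∃ t ∈ Ico 0 T, t₀ < t ∧ ∃ x, K < mass f t x) ∧
  (∀ K : ℝ, ∀ t₀ < T, ∃ t ∈ Ico 0 T, t₀ < t ∧ ∃ x, K < energy f t x) ∧
  ∀ U ∈ 𝓝 x₀, ∃ K : ℝ, ∀ t ∈ Ico 0 T, ∀ x,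
    (∀ z : Fin d → ℤ, x + WithLp.toLp 2 (fun i => (z i : ℝ)) ∉ U) →
      mass f t x ≤ K ∧ energy f t x ≤ K

/-- Non-cutoff kernels `B = |v - v_*|^γ b(cos θ)`, `γ ≥ 0`, `0 < s < 1`, `γ + 2s ≤ 2`, `d ≥ 2`,
classical solution `f` on `[0,T)`.
(1) If `ρ ≤ C (T-t)^(-a)`, `E ≤ C (T-t)^(-e)`, `a ≤ e` and `(1 - γ/2) a + (γ/2) e < 1` (the
collision frequency `ρ θ^(γ/2)` is integrable in time), then `f ≤ C_q (1+|v|²)^(-q/2)` on `[0,T)` for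
all `q`, and there is no implosion.
(2) In particular there is none with the rates `ρ ≤ C (T-t)^(-d(r-1)/r)`,
`E ≤ C (T-t)^(-(d+2)(r-1)/r)`, `1 < r < 2d/(d+√d)`, of the smooth self-similar implosions of the
Euler equations of a monatomic gas, if `d = 2`, or `d = 3` and `γ < √3`. -/
theorem result (d : ℕ) (hd : 2 ≤ d) (s γ : ℝ) (hs : 0 < s) (hs1 : s < 1) (hγ : 0 ≤ γ)
    (hκ : γ + 2 * s ≤ 2) (b : ℝ → ℝ) (hb : NonCutoff d s b) (T : ℝ) (hT : 0 < T)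
    (f : ℝ → V d → V d → ℝ) (hf : ClassicalSolution d γ b T f) :
    (∀ a e C : ℝ, a ≤ e → 0 ≤ C → (1 - γ / 2) * a + γ / 2 * e < 1 →
      (∀ t ∈ Ico 0 T, ∀ x, mass f t x ≤ C * (T - t) ^ (-a) ∧ energy f t x ≤ C * (T - t) ^ (-e)) →
      (∀ q : ℝ, ∃ C' : ℝ, ∀ t ∈ Ico 0 T, ∀ x v, f t x v ≤ C' * (1 + ‖v‖ ^ 2) ^ (-(q / 2))) ∧
      ∀ x₀, ¬ Implodes T f x₀) ∧
    (d = 2 ∨ (d = 3 ∧ γ < √3) → ∀ r C : ℝ, 1 < r → r < 2 * d / (d + √d) → 0 ≤ C →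
      (∀ t ∈ Ico 0 T, ∀ x, mass f t x ≤ C * (T - t) ^ (-(d * ((r - 1) / r))) ∧
        energy f t x ≤ C * (T - t) ^ (-((d + 2) * ((r - 1) / r)))) →
      ∀ x₀, ¬ Implodes T f x₀) := by
  obtain ⟨hbm, c₁, c₂, hc₁, hbc⟩ := hb
  have hK : Pool.Agent.L7h99.BI.Ker d s b c₁ c₂ :=
    ⟨hbm, hc₁, fun z h1 h2 => (hbc z h1 h2).1, fun z h1 h2 => (hbc z h1 h2).2⟩
  have hS : Pool.Agent.L7h99.BI.Sol d γ b T f :=
    ⟨hf.nonneg, hf.periodic, hf.cont, hf.decay, hf.equation⟩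
  have hSP := Pool.Agent.L7h56.BI.t_SP Pool.Agent.L7h56.BI.t_CAP
  have hISO := Pool.Agent.L7h12.BI.t_ISO
  have hGAIN := Pool.Agent.L7h12.BI.t_GAIN
  have hMC := Pool.Agent.L7h44.BI.t_MC
  have hBB := Pool.Agent.L7h65.BI.t_BB hSP
  have hCAN := Pool.Agent.L7h12.BI.t_CAN hSP
  have hEST : Pool.Agent.L7h99.BI.S_EST := Pool.Agent.L7h99.BI.t_EST hISO hGAIN hBB hCAN
    Pool.Agent.L7h65.BI.t_GB Pool.Agent.L7h65.BI.t_IN2 Pool.Agent.L7h50.BI.t_IN1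
    Pool.Agent.L7h50.BI.t_QPN
  have hEST2 : Pool.Agent.L7h99.BI.S_EST2 := Pool.Agent.L7h99.BI.t_EST2 hISO hGAIN hBB hCAN
    Pool.Agent.L7h65.BI.t_GB Pool.Agent.L7h65.BI.t_IN2 Pool.Agent.L7h50.BI.t_IN1
    Pool.Agent.L7h50.BI.t_QPN
  have h1 : ∀ a e C : ℝ, a ≤ e → 0 ≤ C → (1 - γ / 2) * a + γ / 2 * e < 1 →
      (∀ t ∈ Ico 0 T, ∀ x, mass f t x ≤ C * (T - t) ^ (-a) ∧ energy f t x ≤ C * (T - t) ^ (-e)) →
      (∀ q : ℝ, ∃ C' : ℝ, ∀ t ∈ Ico 0 T, ∀ x v, f t x v ≤ C' * (1 + ‖v‖ ^ 2) ^ (-(q / 2))) ∧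
      ∀ x₀, ¬ Implodes T f x₀ := by
    intro a e C hae hC hlt hr
    have hb := Pool.Agent.L7h99.BI.freq_bdd Pool.Agent.L7h99.BI.t_ST1 Pool.Agent.L7h65.BI.t_ST2
      hEST hEST2 Pool.Agent.L7h99.BI.t_SCALE Pool.Agent.L7h99.BI.t_ESTS Pool.Agent.L7h56.BI.t_MAX2
      hMC hd hs hs1 hγ hκ hK hT hS hae hC hlt hr
    obtain ⟨C', -, hC'⟩ := Pool.Agent.L7h99.BI.dens_bdd hS hb
    refine ⟨fun q => ?_, fun x₀ himp => ?_⟩
    · obtain ⟨A, -, hA⟩ := hb q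
      exact ⟨A, hA⟩
    · obtain ⟨t, ht, _, x, hx⟩ := himp.1 C' 0 hT
      exact absurd (hC' t ht x).1 (not_le.2 hx)
  refine ⟨h1, fun hdd r C hr1 hr2 hC hr x₀ => ?_⟩
  refine (h1 _ _ C ?_ hC ?_ hr).2 x₀
  · have : 0 ≤ (r - 1) / r := div_nonneg (by linarith) (by linarith)
    nlinarith
  · have e1 : (1 - γ / 2) * ((d:ℝ) * ((r - 1) / r)) + γ / 2 * (((d:ℝ) + 2) * ((r - 1) / r)) =
        ((d:ℝ) + γ) * ((r - 1) / r) := by ring
    rw [e1]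
    exact Pool.Agent.L7h99.BI.euler_rate hγ (by linarith) hdd hr1 hr2

end Pool.Agent.Results.MP_187b32_an.CollisionFrequency
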