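import Pool.Agent.L7h99.BI.Fin
import Pool.Agent.L7h12.BI.Gain
import Pool.Agent.L7h12.BI.Can
import Pool.Agent.L7h56.BI.Cap
import Pool.Agent.L7h56.BI.Sp
import Pool.Agent.L7h56.BI.Max
import Pool.Agent.L7h65.BI.Bb
import Pool.Agent.L7h65.BI.Gb
import Pool.Agent.L7h50.BI.Qpn
import Pool.Agent.L7h50.BI.In1
import Pool.Agent.L7h65.BI.In2
import Pool.Agent.L7h44.BI.Mc

set_option autoImplicit false

/-!
Project BI: helper99 (statements, pointwise estimate, assembly) with helper12 (changes of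
variables, cancellation), helper56 (spherical integrals, maximum principle), helper65 (kernel
bounds, slow velocities), helper50 (truncated operator, inner estimates), helper44 (moments).
-/

open MeasureTheory Set Filter Topology

namespace Pool.Agent.Results.MP_187b32_an.IntegratedCriterion

/-- The space `ℝ^d` of velocities (and of positions; functions of the position are periodic). -/
abbrev V (d : ℕ) := EuclideanSpace ℝ (Fin d)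

/-- `v' = (v + v_*)/2 + |v - v_*| σ/2`. -/
noncomputable def post {d : ℕ} (v w σ : V d) : V d := (1 / 2 : ℝ) • (v + w) + (‖v - w‖ / 2) • σ

/-- `v'_* = (v + v_*)/2 - |v - v_*| σ/2`. -/
noncomputable def postStar {d : ℕ} (v w σ : V d) : V d :=
  (1 / 2 : ℝ) • (v + w) - (‖v - w‖ / 2) • σ

/-- `cos θ = σ·(v - v_*)/|v - v_*|`. -/
noncomputable def cosTheta {d : ℕ} (v w σ : V d) : ℝ := inner ℝ (v - w) σ / ‖v - w‖

/-- `b` is the angular part of a non-cutoff kernel: `b(cos θ)` lies between two positive multiples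
of `sin(θ/2)^(-(d-1)-2s) = ((1 - cos θ)/2)^(-((d-1)/2+s))`. -/
structure NonCutoff (d : ℕ) (s : ℝ) (b : ℝ → ℝ) : Prop where
  meas : Measurable b
  bounds : ∃ c₁ c₂ : ℝ, 0 < c₁ ∧ ∀ z, -1 ≤ z → z < 1 →
    c₁ * ((1 - z) / 2) ^ (-(((d : ℝ) - 1) / 2 + s)) ≤ b z ∧
      b z ≤ c₂ * ((1 - z) / 2) ^ (-(((d : ℝ) - 1) / 2 + s))

/-- The Boltzmann collision operator with kernel `|v - v_*|^γ b(cos θ)`, angles with
`cos θ ≥ 1 - ε` removed; `volume.toSphere` is the surface measure of the unit sphere. -/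
noncomputable def truncatedCollision {d : ℕ} (γ : ℝ) (b : ℝ → ℝ) (ε : ℝ) (F : V d → ℝ)
    (v : V d) : ℝ :=
  ∫ w : V d, ∫ σ : Metric.sphere (0 : V d) 1, (if cosTheta v w σ < 1 - ε then
    (F (postStar v w σ) * F (post v w σ) - F w * F v) *
      (‖v - w‖ ^ γ * b (cosTheta v w σ)) else 0) ∂((volume : Measure (V d)).toSphere)

/-- `Q(F,F)(v) = Q`, the collision operator being the principal value (limit `ε → 0`). -/
def HasCollision {d : ℕ} (γ : ℝ) (b : ℝ → ℝ) (F : V d → ℝ) (v : V d) (Q : ℝ) : Prop :=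
  Tendsto (fun ε => truncatedCollision γ b ε F v) (𝓝[>] 0) (𝓝 Q)

/-- Classical solutions `f(t,x,v) ≥ 0` on `[0,T)` of the Boltzmann equation on the torus
`ℝ^d/ℤ^d`: continuous, decaying faster than any power of `|v|` uniformly on `[0,T'] × 𝕋^d` for
`T' < T`, differentiable in `(t,x)` with `∂_t f + v·∇_x f = Q(f,f)` at every point. -/
structure ClassicalSolution (d : ℕ) (γ : ℝ) (b : ℝ → ℝ) (T : ℝ) (f : ℝ → V d → V d → ℝ) :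
    Prop where
  nonneg : ∀ t ∈ Ico 0 T, ∀ x v, 0 ≤ f t x v
  periodic : ∀ t ∈ Ico 0 T, ∀ x v, ∀ i : Fin d, f t (x + EuclideanSpace.single i 1) v = f t x v
  cont : ContinuousOn (fun p : ℝ × V d × V d => f p.1 p.2.1 p.2.2) (Ico 0 T ×ˢ univ)
  decay : ∀ T' : ℝ, 0 ≤ T' → T' < T → ∀ q : ℝ, ∃ C : ℝ, ∀ t ∈ Icc 0 T', ∀ x v,
    f t x v ≤ C * (1 + ‖v‖ ^ 2) ^ (-(q / 2))
  equation : ∀ t ∈ Ioo 0 T, ∀ x v, ∃ L : ℝ × V d →L[ℝ] ℝ,
    HasFDerivAt (fun p : ℝ × V d => f p.1 p.2 v) L (t, x) ∧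
    HasCollision γ b (f t x) v (L (1, v))

/-- The mass density. -/
noncomputable def mass {d : ℕ} (f : ℝ → V d → V d → ℝ) (t : ℝ) (x : V d) : ℝ := ∫ v, f t x v

/-- The energy density. -/
noncomputable def energy {d : ℕ} (f : ℝ → V d → V d → ℝ) (t : ℝ) (x : V d) : ℝ :=
  ∫ v, f t x v * ‖v‖ ^ 2

/-- The moment `∫ f (1 + |v|²)^(κ/2) dv`. -/
noncomputable def moment {d : ℕ} (κ : ℝ) (f : ℝ → V d → V d → ℝ) (t : ℝ) (x : V d) : ℝ :=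
  ∫ v, f t x v * (1 + ‖v‖ ^ 2) ^ (κ / 2)

/-- Implosion singularity at `x₀` at time `T`: mass and energy densities are unbounded as `t → T`,
and bounded outside every neighbourhood of (the class modulo `ℤ^d` of) `x₀`. -/
def Implodes {d : ℕ} (T : ℝ) (f : ℝ → V d → V d → ℝ) (x₀ : V d) : Prop :=
  (∀ K : ℝ, ∀ t₀ < T, ∃ t ∈ Ico 0 T, t₀ < t ∧ ∃ x, K < mass f t x) ∧
  (∀ K : ℝ, ∀ t₀ < T, ∃ t ∈ Ico 0 T, t₀ < t ∧ ∃ x, K < energy f t x) ∧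
  ∀ U ∈ 𝓝 x₀, ∃ K : ℝ, ∀ t ∈ Ico 0 T, ∀ x,
    (∀ z : Fin d → ℤ, x + WithLp.toLp 2 (fun i => (z i : ℝ)) ∉ U) →
      mass f t x ≤ K ∧ energy f t x ≤ K

/-- Non-cutoff kernels `B = |v - v_*|^γ b(cos θ)`, `γ ≥ 0`, `0 < s < 1`, `d ≥ 2`, classical
solution `f` on `[0,T)`.
(1) If `∫_0^T sup_x ∫ f (1+|v|²)^((γ+2s)/2) dv dt < ∞`, then `f ≤ C_q (1+|v|²)^(-q/2)` on
`[0,T) × 𝕋^d × ℝ^d` for all `q`, mass and energy densities are bounded, and there is no implosion.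
(2) If `γ + 2s ≤ 2`, there is no implosion with `∫_0^T sup_x (ρ + E) dt < ∞`.
(3) If `γ + 2s ≤ 2`, there is no implosion with `ρ ≤ C (T-t)^(-a)`, `E ≤ C (T-t)^(-e)`, `a ≤ e`,
`(1 - κ/2) a + (κ/2) e < 1`, `κ = γ + 2s`. -/
theorem result (d : ℕ) (hd : 2 ≤ d) (s γ : ℝ) (hs : 0 < s) (hs1 : s < 1) (hγ : 0 ≤ γ)
    (b : ℝ → ℝ) (hb : NonCutoff d s b) (T : ℝ) (hT : 0 < T) (f : ℝ → V d → V d → ℝ)
    (hf : ClassicalSolution d γ b T f) :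
    (IntegrableOn (fun t => ⨆ x, moment (γ + 2 * s) f t x) (Ioo 0 T) →
      (∀ q : ℝ, ∃ C : ℝ, ∀ t ∈ Ico 0 T, ∀ x v, f t x v ≤ C * (1 + ‖v‖ ^ 2) ^ (-(q / 2))) ∧
      (∃ C : ℝ, ∀ t ∈ Ico 0 T, ∀ x, mass f t x ≤ C ∧ energy f t x ≤ C) ∧
      ∀ x₀, ¬ Implodes T f x₀) ∧
    (γ + 2 * s ≤ 2 → IntegrableOn (fun t => ⨆ x, (mass f t x + energy f t x)) (Ioo 0 T) →
      ∀ x₀, ¬ Implodes T f x₀) ∧
    (γ + 2 * s ≤ 2 → ∀ a e C : ℝ, a ≤ e → 0 ≤ C →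
      (1 - (γ + 2 * s) / 2) * a + (γ + 2 * s) / 2 * e < 1 →
      (∀ t ∈ Ico 0 T, ∀ x, mass f t x ≤ C * (T - t) ^ (-a) ∧ energy f t x ≤ C * (T - t) ^ (-e)) →
      ∀ x₀, ¬ Implodes T f x₀) := by
  obtain ⟨hbm, c₁, c₂, hc₁, hbc⟩ := hb
  have hK : Pool.Agent.L7h99.BI.Ker d s b c₁ c₂ :=
    ⟨hbm, hc₁, fun z h1 h2 => (hbc z h1 h2).1, fun z h1 h2 => (hbc z h1 h2).2⟩
  have hS : Pool.Agent.L7h99.BI.Sol d γ b T f :=
    ⟨hf.nonneg, hf.periodic, hf.cont, hf.decay, hf.equation⟩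
  have hSP := Pool.Agent.L7h56.BI.t_SP Pool.Agent.L7h56.BI.t_CAP
  have hISO := Pool.Agent.L7h12.BI.t_ISO
  have hGAIN := Pool.Agent.L7h12.BI.t_GAIN
  have hMC := Pool.Agent.L7h44.BI.t_MC
  have hEST : Pool.Agent.L7h99.BI.S_EST := Pool.Agent.L7h99.BI.t_EST hISO hGAIN
    (Pool.Agent.L7h65.BI.t_BB hSP) (Pool.Agent.L7h12.BI.t_CAN hSP) Pool.Agent.L7h65.BI.t_GB
    Pool.Agent.L7h65.BI.t_IN2 Pool.Agent.L7h50.BI.t_IN1 Pool.Agent.L7h50.BI.t_QPN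
  have hno : ∀ C : ℝ, (∀ t ∈ Ico 0 T, ∀ x, mass f t x ≤ C ∧ energy f t x ≤ C) →
      ∀ x₀, ¬ Implodes T f x₀ := by
    intro C hC x₀ himp
    obtain ⟨t, ht, _, x, hx⟩ := himp.1 C 0 hT
    exact absurd (hC t ht x).1 (not_le.2 hx)
  have hmain : IntegrableOn (Pool.Agent.L7h99.BI.MM (γ + 2 * s) f) (Ioo 0 T) →
      (∀ q : ℝ, ∃ C : ℝ, 0 < C ∧ ∀ t ∈ Ico 0 T, ∀ x v, f t x v ≤ C * (1 + ‖v‖ ^ 2) ^ (-(q / 2))) ∧
      (∃ C : ℝ, ∀ t ∈ Ico 0 T, ∀ x, mass f t x ≤ C ∧ energy f t x ≤ C) := by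
    intro hint
    have h1 := Pool.Agent.L7h99.BI.criterion hEST Pool.Agent.L7h56.BI.t_MAX hMC hd hs hs1 hγ hK hT
      hS hint
    obtain ⟨C, -, hC⟩ := Pool.Agent.L7h99.BI.dens_bdd hS h1
    exact ⟨h1, C, hC⟩
  refine ⟨fun hint => ?_, fun hκ hint x₀ => ?_, fun hκ a e C hae hC hlt hr x₀ => ?_⟩
  · obtain ⟨h1, C, hC⟩ := hmain hint
    refine ⟨fun q => ?_, ⟨C, hC⟩, hno C hC⟩
    obtain ⟨C', -, hC'⟩ := h1 q
    exact ⟨C', hC'⟩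
  · obtain ⟨-, C, hC⟩ := hmain (Pool.Agent.L7h99.BI.MM_le_sum hMC hT hS hκ hint)
    exact hno C hC x₀
  · obtain ⟨-, C', hC'⟩ := hmain (Pool.Agent.L7h99.BI.rates_int hMC hT hS (by linarith) hκ hae hlt
      hC hr)
    exact hno C' hC' x₀

end Pool.Agent.Results.MP_187b32_an.IntegratedCriterion
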