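import Pool.Agent.L7h99.BI.Fin
import Pool.Agent.L7h99.BI.Crit3
import Pool.Agent.L7h12.BI.Gain3
import Pool.Agent.L7h12.BI.Can3
import Pool.Agent.L7h12.BI.Rz
import Pool.Agent.L7h12.BI.In13
import Pool.Agent.L7h12.BI.Qpn3
import Pool.Agent.L7h56.BI.Cap
import Pool.Agent.L7h56.BI.Sp
import Pool.Agent.L7h56.BI.Max
import Pool.Agent.L7h65.BI.Bb3
import Pool.Agent.L7h65.BI.Gb3
import Pool.Agent.L7h65.BI.In23
import Pool.Agent.L7h44.BI.Mc3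

set_option autoImplicit false

/-!
Projects BI, BI3: helper99 (statements, pointwise estimates, assembly) with helper12 (changes of
variables, cancellation, Riesz potentials, truncated operator for soft potentials), helper56
(spherical integrals, maximum principle), helper65 (kernel bounds, slow velocities), helper50
(truncated operator, inner estimates), helper44 (moments).
-/

open MeasureTheory Set Filter Topology

namespace Pool.Agent.Results.MP_187b32_an.IntegratedSoftCriterion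

/-- The space `ℝ^d` of velocities (and of positions; functions of the position are periodic). -/
abbrev V (d : ℕ) := EuclideanSpace ℝ (Fin d)

/-- `v' = (v + v_*)/2 + |v - v_*| σ/2`. -/
noncomputable def post {d : ℕ} (v w σ : V d) : V d := (1 / 2 : ℝ) • (v + w) + (‖v - w‖ / 2) • σ

/-- `v'_* = (v + v_*)/2 - |v - v_*| σ/2`. -/
noncomputable def postStar {d : ℕ} (v w σ : V d) : V d :=
  (1 / 2 : ℝ) • (v + w) - (‖v - w‖ / 2) • σ

/-- `cos θ = σ·(v - v_*)/|v - v_*|`. -/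
noncomputable def cosTheta {d : ℕ} (v w σ : V d) : ℝ := inner ℝ (v - w) σ / ‖v - w‖

/-- `b` is the angular part of a non-cutoff kernel: `b(cos θ)` lies between two positive multiples
of `sin(θ/2)^(-(d-1)-2s) = ((1 - cos θ)/2)^(-((d-1)/2+s))`. -/
structure NonCutoff (d : ℕ) (s : ℝ) (b : ℝ → ℝ) : Prop where
  meas : Measurable b
  bounds : ∃ c₁ c₂ : ℝ, 0 < c₁ ∧ ∀ z, -1 ≤ z → z < 1 →
    c₁ * ((1 - z) / 2) ^ (-(((d : ℝ) - 1) / 2 + s)) ≤ b z ∧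
      b z ≤ c₂ * ((1 - z) / 2) ^ (-(((d : ℝ) - 1) / 2 + s))

/-- The Boltzmann collision operator with kernel `|v - v_*|^γ b(cos θ)`, angles with
`cos θ ≥ 1 - ε` removed; `volume.toSphere` is the surface measure of the unit sphere. -/
noncomputable def truncatedCollision {d : ℕ} (γ : ℝ) (b : ℝ → ℝ) (ε : ℝ) (F : V d → ℝ)
    (v : V d) : ℝ :=
  ∫ w : V d, ∫ σ : Metric.sphere (0 : V d) 1, (if cosTheta v w σ < 1 - ε then
    (F (postStar v w σ) * F (post v w σ) - F w * F v) *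
      (‖v - w‖ ^ γ * b (cosTheta v w σ)) else 0) ∂((volume : Measure (V d)).toSphere)

/-- `Q(F,F)(v) = Q`, the collision operator being the principal value (limit `ε → 0`). -/
def HasCollision {d : ℕ} (γ : ℝ) (b : ℝ → ℝ) (F : V d → ℝ) (v : V d) (Q : ℝ) : Prop :=
  Tendsto (fun ε => truncatedCollision γ b ε F v) (𝓝[>] 0) (𝓝 Q)

/-- Classical solutions `f(t,x,v) ≥ 0` on `[0,T)` of the Boltzmann equation on the torus
`ℝ^d/ℤ^d`: continuous, decaying faster than any power of `|v|` uniformly on `[0,T'] × 𝕋^d` for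
`T' < T`, differentiable in `(t,x)` with `∂_t f + v·∇_x f = Q(f,f)` at every point. -/
structure ClassicalSolution (d : ℕ) (γ : ℝ) (b : ℝ → ℝ) (T : ℝ) (f : ℝ → V d → V d → ℝ) :
    Prop where
  nonneg : ∀ t ∈ Ico 0 T, ∀ x v, 0 ≤ f t x v
  periodic : ∀ t ∈ Ico 0 T, ∀ x v, ∀ i : Fin d, f t (x + EuclideanSpace.single i 1) v = f t x v
  cont : ContinuousOn (fun p : ℝ × V d × V d => f p.1 p.2.1 p.2.2) (Ico 0 T ×ˢ univ)
  decay : ∀ T' : ℝ, 0 ≤ T' → T' < T → ∀ q : ℝ, ∃ C : ℝ, ∀ t ∈ Icc 0 T', ∀ x v,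
    f t x v ≤ C * (1 + ‖v‖ ^ 2) ^ (-(q / 2))
  equation : ∀ t ∈ Ioo 0 T, ∀ x v, ∃ L : ℝ × V d →L[ℝ] ℝ,
    HasFDerivAt (fun p : ℝ × V d => f p.1 p.2 v) L (t, x) ∧
    HasCollision γ b (f t x) v (L (1, v))

/-- The mass density. -/
noncomputable def mass {d : ℕ} (f : ℝ → V d → V d → ℝ) (t : ℝ) (x : V d) : ℝ := ∫ v, f t x v

/-- The energy density. -/
noncomputable def energy {d : ℕ} (f : ℝ → V d → V d → ℝ) (t : ℝ) (x : V d) : ℝ :=
  ∫ v, f t x v * ‖v‖ ^ 2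

/-- `∫ f(t,x,v_*) (|v - v_*|^γ + (1 + |v_*|²)^(κ/2)) dv_*`: collision frequency plus a moment. -/
noncomputable def frequencyMoment {d : ℕ} (γ κ : ℝ) (f : ℝ → V d → V d → ℝ) (t : ℝ) (x v : V d) :
    ℝ :=
  ∫ w, f t x w * (‖v - w‖ ^ γ + (1 + ‖w‖ ^ 2) ^ (κ / 2))

/-- Implosion singularity at `x₀` at time `T`: mass and energy densities are unbounded as `t → T`,
and bounded outside every neighbourhood of (the class modulo `ℤ^d` of) `x₀`. -/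
def Implodes {d : ℕ} (T : ℝ) (f : ℝ → V d → V d → ℝ) (x₀ : V d) : Prop :=
  (∀ K : ℝ, ∀ t₀ < T, ∃ t ∈ Ico 0 T, t₀ < t ∧ ∃ x, K < mass f t x) ∧
  (∀ K : ℝ, ∀ t₀ < T, ∃ t ∈ Ico 0 T, t₀ < t ∧ ∃ x, K < energy f t x) ∧
  ∀ U ∈ 𝓝 x₀, ∃ K : ℝ, ∀ t ∈ Ico 0 T, ∀ x,
    (∀ z : Fin d → ℤ, x + WithLp.toLp 2 (fun i => (z i : ℝ)) ∉ U) →
      mass f t x ≤ K ∧ energy f t x ≤ K

/-- Soft potentials: non-cutoff kernels `B = |v - v_*|^γ b(cos θ)`, `-d < γ < 0`, `0 < s < 1`, `d ≥ 2`,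
classical solution `f` on `[0,T)`. If
`∫_0^T sup_{x,v} ∫ f(t,x,v_*) (|v - v_*|^γ + (1 + |v_*|²)^((γ+2s)/2)) dv_* dt < ∞`, then
`f ≤ C_q (1+|v|²)^(-q/2)` on `[0,T) × 𝕋^d × ℝ^d` for all `q`, the mass and energy densities are
bounded, and there is no implosion. -/
theorem result (d : ℕ) (hd : 2 ≤ d) (s γ : ℝ) (hs : 0 < s) (hs1 : s < 1) (hγd : -(d : ℝ) < γ)
    (hγ : γ < 0) (b : ℝ → ℝ) (hb : NonCutoff d s b) (T : ℝ) (hT : 0 < T)
    (f : ℝ → V d → V d → ℝ) (hf : ClassicalSolution d γ b T f)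
    (hint : IntegrableOn (fun t => ⨆ p : V d × V d, frequencyMoment γ (γ + 2 * s) f t p.1 p.2)
      (Ioo 0 T)) :
    (∀ q : ℝ, ∃ C : ℝ, ∀ t ∈ Ico 0 T, ∀ x v, f t x v ≤ C * (1 + ‖v‖ ^ 2) ^ (-(q / 2))) ∧
    (∃ C : ℝ, ∀ t ∈ Ico 0 T, ∀ x, mass f t x ≤ C ∧ energy f t x ≤ C) ∧
    ∀ x₀, ¬ Implodes T f x₀ := by
  obtain ⟨hbm, c₁, c₂, hc₁, hbc⟩ := hb
  have hK : Pool.Agent.L7h99.BI.Ker d s b c₁ c₂ :=
    ⟨hbm, hc₁, fun z h1 h2 => (hbc z h1 h2).1, fun z h1 h2 => (hbc z h1 h2).2⟩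
  have hS : Pool.Agent.L7h99.BI.Sol d γ b T f :=
    ⟨hf.nonneg, hf.periodic, hf.cont, hf.decay, hf.equation⟩
  have hSP := Pool.Agent.L7h56.BI.t_SP Pool.Agent.L7h56.BI.t_CAP
  have hRZ := Pool.Agent.L7h12.BI.t_RZ
  have hEST3 : Pool.Agent.L7h99.BI.S_EST3 := Pool.Agent.L7h99.BI.t_EST3 Pool.Agent.L7h12.BI.t_ISO
    Pool.Agent.L7h12.BI.t_GAIN3 (Pool.Agent.L7h65.BI.t_BB3 hSP) (Pool.Agent.L7h12.BI.t_CAN3 hSP)
    Pool.Agent.L7h65.BI.t_GB3 Pool.Agent.L7h65.BI.t_IN23 Pool.Agent.L7h12.BI.t_IN13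
    Pool.Agent.L7h12.BI.t_QPN3 hRZ
  have h1 := Pool.Agent.L7h99.BI.criterion3 hEST3 Pool.Agent.L7h56.BI.t_MAX hRZ
    Pool.Agent.L7h44.BI.t_MC3 hd hs hs1 hγd hγ.le hK hT hS hint
  obtain ⟨C, -, hC⟩ := Pool.Agent.L7h99.BI.dens_bdd hS h1
  refine ⟨fun q => ?_, ⟨C, hC⟩, fun x₀ himp => ?_⟩
  · obtain ⟨A, -, hA⟩ := h1 q
    exact ⟨A, hA⟩
  · obtain ⟨t, ht, _, x, hx⟩ := himp.1 C 0 hT
    exact absurd (hC t ht x).1 (not_le.2 hx)

end Pool.Agent.Results.MP_187b32_an.IntegratedSoftCriterion
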