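import Pool.Agent.L7h99.BI.Fin3
import Pool.Agent.L7h99.BI.Est3
import Pool.Agent.L7h99.BI.Scale3
import Pool.Agent.L7h99.BI.Scale
import Pool.Agent.L7h99.BI.St13
import Pool.Agent.L7h12.BI.Gain3
import Pool.Agent.L7h12.BI.Can3
import Pool.Agent.L7h12.BI.Rz
import Pool.Agent.L7h12.BI.In13
import Pool.Agent.L7h12.BI.Qpn3
import Pool.Agent.L7h56.BI.Cap
import Pool.Agent.L7h56.BI.Sp
import Pool.Agent.L7h56.BI.Max2
import Pool.Agent.L7h65.BI.Bb3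
import Pool.Agent.L7h65.BI.Gb3
import Pool.Agent.L7h65.BI.In23
import Pool.Agent.L7h65.BI.St23
import Pool.Agent.L7h44.BI.Mc
import Pool.Agent.L7h44.BI.Mc3

set_option autoImplicit false

/-!
Projects BI, BI2, BI3: helper99 (statements, pointwise estimates, first barrier, assembly) with
helper12 (changes of variables, cancellation, Riesz potentials, truncated operator for soft
potentials), helper56 (spherical integrals, maximum principles), helper65 (kernel bounds, slow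
velocities, second barrier), helper50 (truncated operator, inner estimates), helper44 (moments).
-/

open MeasureTheory Set Filter Topology

namespace Pool.Agent.Results.MP_187b32_an.SoftPotentials

/-- The space `ℝ^d` of velocities (and of positions; functions of the position are periodic). -/
abbrev V (d : ℕ) := EuclideanSpace ℝ (Fin d)

/-- `v' = (v + v_*)/2 + |v - v_*| σ/2`. -/
noncomputable def post {d : ℕ} (v w σ : V d) : V d := (1 / 2 : ℝ) • (v + w) + (‖v - w‖ / 2) • σ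

/-- `v'_* = (v + v_*)/2 - |v - v_*| σ/2`. -/
noncomputable def postStar {d : ℕ} (v w σ : V d) : V d :=
  (1 / 2 : ℝ) • (v + w) - (‖v - w‖ / 2) • σ

/-- `cos θ = σ·(v - v_*)/|v - v_*|`. -/
noncomputable def cosTheta {d : ℕ} (v w σ : V d) : ℝ := inner ℝ (v - w) σ / ‖v - w‖

/-- `b` is the angular part of a non-cutoff kernel: `b(cos θ)` lies between two positive multiples
of `sin(θ/2)^(-(d-1)-2s) = ((1 - cos θ)/2)^(-((d-1)/2+s))`. -/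
structure NonCutoff (d : ℕ) (s : ℝ) (b : ℝ → ℝ) : Prop where
  meas : Measurable b
  bounds : ∃ c₁ c₂ : ℝ, 0 < c₁ ∧ ∀ z, -1 ≤ z → z < 1 →
    c₁ * ((1 - z) / 2) ^ (-(((d : ℝ) - 1) / 2 + s)) ≤ b z ∧
      b z ≤ c₂ * ((1 - z) / 2) ^ (-(((d : ℝ) - 1) / 2 + s))

/-- The Boltzmann collision operator with kernel `|v - v_*|^γ b(cos θ)`, angles with
`cos θ ≥ 1 - ε` removed; `volume.toSphere` is the surface measure of the unit sphere. -/
noncomputable def truncatedCollision {d : ℕ} (γ : ℝ) (b : ℝ → ℝ) (ε : ℝ) (F : V d → ℝ)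
    (v : V d) : ℝ :=
  ∫ w : V d, ∫ σ : Metric.sphere (0 : V d) 1, (if cosTheta v w σ < 1 - ε then
    (F (postStar v w σ) * F (post v w σ) - F w * F v) *
      (‖v - w‖ ^ γ * b (cosTheta v w σ)) else 0) ∂((volume : Measure (V d)).toSphere)

/-- `Q(F,F)(v) = Q`, the collision operator being the principal value (limit `ε → 0`). -/
def HasCollision {d : ℕ} (γ : ℝ) (b : ℝ → ℝ) (F : V d → ℝ) (v : V d) (Q : ℝ) : Prop :=
  Tendsto (fun ε => truncatedCollision γ b ε F v) (𝓝[>] 0) (𝓝 Q)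

/-- Classical solutions `f(t,x,v) ≥ 0` on `[0,T)` of the Boltzmann equation on the torus
`ℝ^d/ℤ^d`: continuous, decaying faster than any power of `|v|` uniformly on `[0,T'] × 𝕋^d` for
`T' < T`, differentiable in `(t,x)` with `∂_t f + v·∇_x f = Q(f,f)` at every point. -/
structure ClassicalSolution (d : ℕ) (γ : ℝ) (b : ℝ → ℝ) (T : ℝ) (f : ℝ → V d → V d → ℝ) :
    Prop where
  nonneg : ∀ t ∈ Ico 0 T, ∀ x v, 0 ≤ f t x v
  periodic : ∀ t ∈ Ico 0 T, ∀ x v, ∀ i : Fin d, f t (x + EuclideanSpace.single i 1) v = f t x v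
  cont : ContinuousOn (fun p : ℝ × V d × V d => f p.1 p.2.1 p.2.2) (Ico 0 T ×ˢ univ)
  decay : ∀ T' : ℝ, 0 ≤ T' → T' < T → ∀ q : ℝ, ∃ C : ℝ, ∀ t ∈ Icc 0 T', ∀ x v,
    f t x v ≤ C * (1 + ‖v‖ ^ 2) ^ (-(q / 2))
  equation : ∀ t ∈ Ioo 0 T, ∀ x v, ∃ L : ℝ × V d →L[ℝ] ℝ,
    HasFDerivAt (fun p : ℝ × V d => f p.1 p.2 v) L (t, x) ∧
    HasCollision γ b (f t x) v (L (1, v))

/-- The mass density. -/
noncomputable def mass {d : ℕ} (f : ℝ → V d → V d → ℝ) (t : ℝ) (x : V d) : ℝ := ∫ v, f t x v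

/-- The energy density. -/
noncomputable def energy {d : ℕ} (f : ℝ → V d → V d → ℝ) (t : ℝ) (x : V d) : ℝ :=
  ∫ v, f t x v * ‖v‖ ^ 2

/-- The collision frequency `∫ f(t,x,v_*) |v - v_*|^γ dv_*`. -/
noncomputable def frequency {d : ℕ} (γ : ℝ) (f : ℝ → V d → V d → ℝ) (t : ℝ) (x v : V d) : ℝ :=
  ∫ w, f t x w * ‖v - w‖ ^ γ

/-- Implosion singularity at `x₀` at time `T`: mass and energy densities are unbounded as `t → T`,
and bounded outside every neighbourhood of (the class modulo `ℤ^d` of) `x₀`. -/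
def Implodes {d : ℕ} (T : ℝ) (f : ℝ → V d → V d → ℝ) (x₀ : V d) : Prop :=
  (∀ K : ℝ, ∀ t₀ < T, ∃ t ∈ Ico 0 T, t₀ < t ∧ ∃ x, K < mass f t x) ∧
  (∀ K : ℝ, ∀ t₀ < T, ∃ t ∈ Ico 0 T, t₀ < t ∧ ∃ x, K < energy f t x) ∧
  ∀ U ∈ 𝓝 x₀, ∃ K : ℝ, ∀ t ∈ Ico 0 T, ∀ x,
    (∀ z : Fin d → ℤ, x + WithLp.toLp 2 (fun i => (z i : ℝ)) ∉ U) →
      mass f t x ≤ K ∧ energy f t x ≤ K

/-- Soft potentials: non-cutoff kernels `B = |v - v_*|^γ b(cos θ)`, `-d < γ < 0`, `0 < s < 1`, `d ≥ 2`,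
classical solution `f` on `[0,T)`.
(1) If the collision frequency is at most `C (T-t)^(-a)` with `a < 1`, and the energy density is at
most `C (T-t)^(-e)` for some real `e` (any power), then `f ≤ C_q (1+|v|²)^(-q/2)` on `[0,T)` for all
`q`, and there is no implosion.
(2) If `f` is bounded on `[0,T)`, `ρ ≤ C (T-t)^(-a)` with `(1 + γ/d) a < 1` and `E ≤ C (T-t)^(-e)`, `e`
arbitrary, there is no implosion.
(3) In particular, for `d ≤ 4` there is no implosion of a bounded solution with the rates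
`ρ ≤ C (T-t)^(-d(r-1)/r)`, `E ≤ C (T-t)^(-(d+2)(r-1)/r)`, `1 < r < 2d/(d+√d)`,
of the smooth self-similar implosions of the Euler equations of a monatomic gas. -/
theorem result (d : ℕ) (hd : 2 ≤ d) (s γ : ℝ) (hs : 0 < s) (hs1 : s < 1) (hγd : -(d : ℝ) < γ)
    (hγ : γ < 0) (b : ℝ → ℝ) (hb : NonCutoff d s b) (T : ℝ) (hT : 0 < T)
    (f : ℝ → V d → V d → ℝ) (hf : ClassicalSolution d γ b T f) :
    (∀ a e C : ℝ, a < 1 → 0 ≤ C →
      (∀ t ∈ Ico 0 T, ∀ x v, frequency γ f t x v ≤ C * (T - t) ^ (-a)) →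
      (∀ t ∈ Ico 0 T, ∀ x, energy f t x ≤ C * (T - t) ^ (-e)) →
      (∀ q : ℝ, ∃ C' : ℝ, ∀ t ∈ Ico 0 T, ∀ x v, f t x v ≤ C' * (1 + ‖v‖ ^ 2) ^ (-(q / 2))) ∧
      ∀ x₀, ¬ Implodes T f x₀) ∧
    (∀ M a e C : ℝ, (∀ t ∈ Ico 0 T, ∀ x v, f t x v ≤ M) → 0 ≤ C → (1 + γ / d) * a < 1 →
      (∀ t ∈ Ico 0 T, ∀ x, mass f t x ≤ C * (T - t) ^ (-a) ∧ energy f t x ≤ C * (T - t) ^ (-e)) →
      ∀ x₀, ¬ Implodes T f x₀) ∧
    (d ≤ 4 → ∀ M r C : ℝ, (∀ t ∈ Ico 0 T, ∀ x v, f t x v ≤ M) → 1 < r → r < 2 * d / (d + √d) →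
      0 ≤ C → (∀ t ∈ Ico 0 T, ∀ x, mass f t x ≤ C * (T - t) ^ (-(d * ((r - 1) / r))) ∧
        energy f t x ≤ C * (T - t) ^ (-((d + 2) * ((r - 1) / r)))) →
      ∀ x₀, ¬ Implodes T f x₀) := by
  obtain ⟨hbm, c₁, c₂, hc₁, hbc⟩ := hb
  have hK : Pool.Agent.L7h99.BI.Ker d s b c₁ c₂ :=
    ⟨hbm, hc₁, fun z h1 h2 => (hbc z h1 h2).1, fun z h1 h2 => (hbc z h1 h2).2⟩
  have hS : Pool.Agent.L7h99.BI.Sol d γ b T f :=
    ⟨hf.nonneg, hf.periodic, hf.cont, hf.decay, hf.equation⟩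
  have hSP := Pool.Agent.L7h56.BI.t_SP Pool.Agent.L7h56.BI.t_CAP
  have hMC := Pool.Agent.L7h44.BI.t_MC
  have hRZ := Pool.Agent.L7h12.BI.t_RZ
  have hMC3 := Pool.Agent.L7h44.BI.t_MC3
  have hEST3 : Pool.Agent.L7h99.BI.S_EST3 := Pool.Agent.L7h99.BI.t_EST3 Pool.Agent.L7h12.BI.t_ISO
    Pool.Agent.L7h12.BI.t_GAIN3 (Pool.Agent.L7h65.BI.t_BB3 hSP) (Pool.Agent.L7h12.BI.t_CAN3 hSP)
    Pool.Agent.L7h65.BI.t_GB3 Pool.Agent.L7h65.BI.t_IN23 Pool.Agent.L7h12.BI.t_IN13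
    Pool.Agent.L7h12.BI.t_QPN3 hRZ
  have h1 : ∀ a e C : ℝ, a < 1 → 0 ≤ C →
      (∀ t ∈ Ico 0 T, ∀ x v, frequency γ f t x v ≤ C * (T - t) ^ (-a)) →
      (∀ t ∈ Ico 0 T, ∀ x, energy f t x ≤ C * (T - t) ^ (-e)) →
      (∀ q : ℝ, ∃ C' : ℝ, ∀ t ∈ Ico 0 T, ∀ x v, f t x v ≤ C' * (1 + ‖v‖ ^ 2) ^ (-(q / 2))) ∧
      ∀ x₀, ¬ Implodes T f x₀ := by
    intro a e C ha hC hν hE
    have hb := Pool.Agent.L7h99.BI.soft_bdd Pool.Agent.L7h99.BI.t_ST13 Pool.Agent.L7h65.BI.t_ST23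
      hEST3 Pool.Agent.L7h99.BI.t_SCALE Pool.Agent.L7h99.BI.t_ESTS3 Pool.Agent.L7h56.BI.t_MAX2
      hMC hRZ hMC3 hd hs hs1 hγd hγ.le hK hT hS hC ha hν hE
    obtain ⟨C', -, hC'⟩ := Pool.Agent.L7h99.BI.dens_bdd hS hb
    refine ⟨fun q => ?_, fun x₀ himp => ?_⟩
    · obtain ⟨A, -, hA⟩ := hb q
      exact ⟨A, hA⟩
    · obtain ⟨t, ht, _, x, hx⟩ := himp.1 C' 0 hT
      exact absurd (hC' t ht x).1 (not_le.2 hx)
  have h2 : ∀ M a e C : ℝ, (∀ t ∈ Ico 0 T, ∀ x v, f t x v ≤ M) → 0 ≤ C → (1 + γ / d) * a < 1 →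
      (∀ t ∈ Ico 0 T, ∀ x, mass f t x ≤ C * (T - t) ^ (-a) ∧ energy f t x ≤ C * (T - t) ^ (-e)) →
      ∀ x₀, ¬ Implodes T f x₀ := by
    intro M a e C hM hC ha hr
    obtain ⟨C₁, hC₁, h3, h4⟩ := Pool.Agent.L7h99.BI.bounded_freq hRZ hMC hd hγd hγ.le hT hS hM hC
      (fun t ht x => (hr t ht x).1)
    refine (h1 ((1 + γ / d) * a) e C₁ ha hC₁.le h4 fun t ht x => ?_).2
    refine (hr t ht x).2.trans (mul_le_mul_of_nonneg_right h3 ?_)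
    exact Real.rpow_nonneg (by linarith [ht.2]) _
  refine ⟨h1, h2, fun hd4 M r C hM hr1 hr2 hC hr => ?_⟩
  exact h2 M _ _ C hM hC (Pool.Agent.L7h99.BI.euler_rate_soft hd hd4 hγ hr1 hr2) hr

end Pool.Agent.Results.MP_187b32_an.SoftPotentials
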